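import Mathlib

/-!
# Counting the backward orbit of `0` under `y ↦ y ^ 2 + y` modulo `1113643`

The program `run` visits the vertices of the backward tree of a list of vertices. The number `D` contains,
in the basis `2 ^ 22`, for every visited vertex `c` the smaller solution `y` of `y ^ 2 + y = c` and two bits
telling whether the solutions `y` and `-1 - y` are visited later or are counted as leaves.
-/

set_option autoImplicit false

namespace Pool.Agent.X40.Tree

open Function

/-- visit `n` vertices, starting with the list `st` of vertices, and compare the list of the remaining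
vertices with `st'` -/
def run (n : ℕ) : ℕ → List ℕ → List ℕ → Bool :=
  Nat.rec (motive := fun _ => ℕ → List ℕ → List ℕ → Bool)
    (fun _ st st' => st == st')
    (fun _ ih D st st' =>
      List.rec (motive := fun _ => Bool) false (fun c rest _ =>
       (fun e => (fun y => Bool.rec false (Bool.rec false (
          Bool.rec (Bool.rec (ih (Nat.div D 4194304) rest st')
              (ih (Nat.div D 4194304) (y :: rest) st') (Nat.beq (Nat.mod e 2) 1))
            (Bool.rec (ih (Nat.div D 4194304) (Nat.sub 1113642 y :: rest) st')
              (ih (Nat.div D 4194304) (y :: Nat.sub 1113642 y :: rest) st') (Nat.beq (Nat.mod e 2) 1))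
            (Nat.ble 2 (Nat.mod e 4))) (Nat.ble y 556820))
          (Nat.beq (Nat.mod (Nat.mul y (Nat.succ y)) 1113643) c)) (Nat.div e 4)) (Nat.mod D 4194304)) st) n

abbrev P : ℕ := 1113643

/-- the map -/
def f (y : ZMod P) : ZMod P := y * y + y

/-- the vertices from which `c` is reached in at least one step -/
noncomputable def anc (c : ZMod P) : Finset (ZMod P) := by
  classical exact Finset.univ.filter (fun x => ∃ k : ℕ, f^[k + 1] x = c)

lemma mem_anc {c x : ZMod P} : x ∈ anc c ↔ ∃ k : ℕ, f^[k + 1] x = c := by
  classical
  rw [anc, Finset.mem_filter]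
  exact ⟨fun h => h.2, fun h => ⟨Finset.mem_univ _, h⟩⟩

/-- `c` is not zero and zero is reached from `c` -/
def Good (c : ZMod P) : Prop := c ≠ 0 ∧ ∃ k : ℕ, f^[k] c = 0

lemma f_zero : f 0 = 0 := by simp [f]

lemma iter_zero (k : ℕ) : f^[k] 0 = 0 := by
  induction k with
  | zero => rfl
  | succ k ih => rw [iterate_succ_apply, f_zero, ih]

lemma Good.child {y c : ZMod P} (hc : Good c) (h : f y = c) : Good y := by
  obtain ⟨h0, k, hk⟩ := hc
  refine ⟨?_, k + 1, ?_⟩
  · rintro rfl
    exact h0 (h.symm.trans f_zero)
  · rw [iterate_succ_apply, h, hk]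

lemma Good.not_periodic {c : ZMod P} (hc : Good c) (k : ℕ) : f^[k + 1] c ≠ c := by
  intro h
  obtain ⟨h0, m, hm⟩ := hc
  apply h0
  have h1 : f^[(k + 1) * (m + 1)] c = c := by
    rw [iterate_mul]
    exact iterate_fixed h _
  rw [← h1, show (k + 1) * (m + 1) = (k + 1 + k * m) + m by ring, iterate_add_apply, hm, iter_zero]

lemma anc_ge {c y z : ZMod P} (hc : Good c) (hy : f y = c) (hz : f z = c) (hyz : y ≠ z) :
    (anc y).card + (anc z).card + 2 ≤ (anc c).card := by
  classical
  have hyz' : ∀ {y z : ZMod P}, f y = c → f z = c → ∀ k, f^[k + 1] y ≠ z := by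
    intro y z hy hz k h
    apply hc.not_periodic k
    rw [← hy, ← iterate_succ_apply, iterate_succ_apply', h, hz, hy]
  have key : ∀ {y z : ZMod P}, f y = c → f z = c → ∀ {x i j}, i ≤ j → f^[i + 1] x = y → f^[j + 1] x = z →
      y = z := by
    intro y z hy hz x i j hij h1 h2
    rcases hij.eq_or_lt with h | h
    · subst h; exact h1.symm.trans h2
    · exfalso
      obtain ⟨d, rfl⟩ := Nat.exists_eq_add_of_lt h
      apply hyz' hy hz d
      rw [← h1, ← iterate_add_apply, ← h2, show d + 1 + (i + 1) = i + d + 1 + 1 by omega]
  have h1 : insert y (insert z (anc y ∪ anc z)) ⊆ anc c := by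
    intro x hx
    simp only [Finset.mem_insert, Finset.mem_union, mem_anc] at hx
    rw [mem_anc]
    rcases hx with rfl | rfl | ⟨k, hk⟩ | ⟨k, hk⟩
    · exact ⟨0, by simpa using hy⟩
    · exact ⟨0, by simpa using hz⟩
    · exact ⟨k + 1, by rw [iterate_succ_apply', hk, hy]⟩
    · exact ⟨k + 1, by rw [iterate_succ_apply', hk, hz]⟩
  have hd : Disjoint (anc y) (anc z) := by
    rw [Finset.disjoint_left]
    intro x hx hx'
    rw [mem_anc] at hx hx'
    obtain ⟨i, hi⟩ := hx
    obtain ⟨j, hj⟩ := hx'
    rcases le_total i j with h | h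
    · exact hyz (key hy hz h hi hj)
    · exact hyz (key hz hy h hj hi).symm
  have hz' : z ∉ anc y ∪ anc z := by
    rw [Finset.mem_union, mem_anc, mem_anc]
    rintro (⟨k, hk⟩ | ⟨k, hk⟩)
    · exact hyz' hz hy k hk
    · exact hyz' hz hz k hk
  have hy' : y ∉ insert z (anc y ∪ anc z) := by
    rw [Finset.mem_insert, Finset.mem_union, mem_anc, mem_anc]
    rintro (h | ⟨k, hk⟩ | ⟨k, hk⟩)
    · exact hyz h
    · exact hyz' hy hy k hk
    · exact hyz' hy hz k hk
  have := Finset.card_le_card h1
  rw [Finset.card_insert_of_notMem hy', Finset.card_insert_of_notMem hz', Finset.card_union_of_disjoint hd] at this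
  omega

/-- all vertices of the list reach zero and are not zero -/
def GoodL (st : List ℕ) : Prop := ∀ c ∈ st, Good (c : ZMod P)

/-- the number of the vertices above the vertices of the list -/
noncomputable def wt (st : List ℕ) : ℕ := (st.map (fun c : ℕ => (anc (c : ZMod P)).card)).sum

lemma run_sound (n : ℕ) : ∀ (D : ℕ) (st st' : List ℕ), run n D st st' = true → GoodL st →
    GoodL st' ∧ 2 * n + wt st' ≤ wt st := by
  induction n with
  | zero =>
    intro D st st' h hg
    have h1 : (st == st') = true := h
    rw [beq_iff_eq] at h1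
    subst h1
    exact ⟨hg, by omega⟩
  | succ n ih =>
    intro D st st' h hg
    rcases st with _ | ⟨c, rest⟩
    · exact absurd h (by simp [run])
    · set e := Nat.mod D 4194304 with he
      set y := Nat.div e 4 with hy
      have h1 : Bool.rec (motive := fun _ => Bool) false (Bool.rec (motive := fun _ => Bool) false (
          Bool.rec (motive := fun _ => Bool) (Bool.rec (motive := fun _ => Bool)
              (run n (Nat.div D 4194304) rest st')
              (run n (Nat.div D 4194304) (y :: rest) st') (Nat.beq (Nat.mod e 2) 1))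
            (Bool.rec (motive := fun _ => Bool) (run n (Nat.div D 4194304) (Nat.sub 1113642 y :: rest) st')
              (run n (Nat.div D 4194304) (y :: Nat.sub 1113642 y :: rest) st') (Nat.beq (Nat.mod e 2) 1))
            (Nat.ble 2 (Nat.mod e 4))) (Nat.ble y 556820))
          (Nat.beq (Nat.mod (Nat.mul y (Nat.succ y)) 1113643) c) = true := h
      cases h2 : Nat.beq (Nat.mod (Nat.mul y (Nat.succ y)) 1113643) c
      · rw [h2] at h1; exact absurd h1 (by simp)
      rw [h2] at h1
      cases h3 : Nat.ble y 556820
      · rw [h3] at h1; exact absurd h1 (by simp)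
      rw [h3] at h1
      have h2 : y * (y + 1) % 1113643 = c := Nat.eq_of_beq_eq_true h2
      have h3 := Nat.le_of_ble_eq_true h3
      have h4 : ∃ b1 b2 : Bool, run n (Nat.div D 4194304)
          (cond b1 (y :: cond b2 ((1113642 - y) :: rest) rest) (cond b2 ((1113642 - y) :: rest) rest))
            st' = true := by
        cases h5 : Nat.beq (Nat.mod e 2) 1 <;> cases h6 : Nat.ble 2 (Nat.mod e 4) <;> rw [h5, h6] at h1
        · exact ⟨false, false, h1⟩
        · exact ⟨false, true, h1⟩
        · exact ⟨true, false, h1⟩
        · exact ⟨true, true, h1⟩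
      clear h1 h
      clear_value y
      obtain ⟨b1, b2, h4⟩ := h4
      have hc := hg c (by simp)
      have fy : f (y : ZMod P) = (c : ZMod P) := by
        rw [f, ← h2]
        have : ((y * (y + 1) : ℕ) : ZMod P) = (((y * (y + 1)) % 1113643 : ℕ) : ZMod P) :=
          (ZMod.natCast_mod _ P).symm
        rw [← this]
        push_cast
        ring
      have ez : ((1113642 - y : ℕ) : ZMod P) = -1 - (y : ZMod P) := by
        have e1 : (((1113642 - y) + y + 1 : ℕ) : ZMod P) = 0 := by
          rw [show (1113642 - y) + y + 1 = P by unfold P; omega]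
          exact ZMod.natCast_self P
        rw [Nat.cast_add, Nat.cast_add, Nat.cast_one] at e1
        linear_combination e1
      have fz : f ((1113642 - y : ℕ) : ZMod P) = (c : ZMod P) := by
        rw [← fy, ez, f, f]
        ring
      have hyz : (y : ZMod P) ≠ ((1113642 - y : ℕ) : ZMod P) := by
        intro h
        rw [ZMod.natCast_eq_natCast_iff'] at h
        rw [Nat.mod_eq_of_lt (show y < P by unfold P; omega),
          Nat.mod_eq_of_lt (show 1113642 - y < P by unfold P; omega)] at h
        omega
      have hrest : GoodL rest := fun d hd => hg d (by simp [hd])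
      have hgy : Good (y : ZMod P) := hc.child fy
      have hgz : Good ((1113642 - y : ℕ) : ZMod P) := hc.child fz
      have hA := anc_ge hc fy fz hyz
      have hcons : ∀ (a : ℕ) (l : List ℕ), wt (a :: l) = (anc (a : ZMod P)).card + wt l := by
        intro a l; simp [wt]
      have hG : ∀ {a : ℕ} {l : List ℕ}, Good (a : ZMod P) → GoodL l → GoodL (a :: l) := by
        intro a l ha hl d hd
        rw [List.mem_cons] at hd
        rcases hd with rfl | hd
        · exact ha
        · exact hl d hd
      have h5 := ih _ _ _ h4 (by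
        cases b1 <;> cases b2
        · exact hrest
        · exact hG hgz hrest
        · exact hG hgy hrest
        · exact hG hgy (hG hgz hrest))
      refine ⟨h5.1, ?_⟩
      have h6 := h5.2
      rw [hcons c rest]
      cases b1 <;> cases b2 <;> simp only [cond_true, cond_false, hcons] at h6 <;> omega

/-- the consequence of a run of length `n` -/
def Link (n : ℕ) (st st' : List ℕ) : Prop := GoodL st → GoodL st' ∧ 2 * n + wt st' ≤ wt st

lemma link {n D : ℕ} {st st' : List ℕ} (h : run n D st st' = true) : Link n st st' :=
  fun hg => run_sound n D st st' h hg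

lemma Link.trans {m n k : ℕ} {a b c : List ℕ} (h1 : Link m a b) (h2 : Link n b c) (hk : k = m + n) :
    Link k a c := by
  intro h
  obtain ⟨h3, h4⟩ := h1 h
  obtain ⟨h5, h6⟩ := h2 h3
  exact ⟨h5, by omega⟩

end Pool.Agent.X40.Tree
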